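import Pool.Agent.Helper21.PL.Supp
import Pool.Agent.Helper63.PL.Walks
import Pool.Agent.Helper71.QU.Girth

/-!
# PL-6: the number of branch vertices, and the finiteness of the primary scale
-/

set_option autoImplicit false
set_option linter.unusedSectionVars false

open Set
open Pool.Agent.Helper83.OP Pool.Agent.Helper93.HH Pool.Agent.Helper23.PL

namespace Pool.Agent.Helper21.PL

theorem sum_deg {V : Type} [Fintype V] (Γ : SimpleGraph V) :
    ∑ v, deg Γ v = 2 * Γ.edgeSet.ncard := by
  classical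
  have h1 : ∀ v, deg Γ v = Γ.degree v := by
    intro v
    unfold deg
    rw [Set.ncard_eq_toFinset_card', ← SimpleGraph.card_neighborSet_eq_degree,
      Set.toFinset_card]
  have h2 : Γ.edgeSet.ncard = Γ.edgeFinset.card := by
    rw [Set.ncard_eq_toFinset_card']
    rfl
  rw [Finset.sum_congr rfl fun v _ => h1 v, h2, SimpleGraph.sum_degrees_eq_twice_card_edges]

section

variable {V P Q : Type} [Finite V] [Finite P] [Finite Q] {D : HD V P Q} {k k1 k2 : ℕ}

omit [Finite V] [Finite P] [Finite Q] in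
theorem dg_of (v : V) : D.dg v = deg D.N v + D.pn v := rfl

omit [Finite V] [Finite Q] in
theorem pn_zero {v : V} (h : ∀ p, D.x p ≠ v) : D.pn v = 0 := by
  unfold HD.pn
  rw [Set.ncard_eq_zero (Set.toFinite _)]
  apply Set.eq_empty_of_forall_notMem
  intro p hp
  exact h p hp

/-- **PL-6a.** The number of branch vertices. -/
theorem nb_le (hD : D.Ok) (hB : Bad D k k2) (t : ℕ) (ht : 10 ^ t * Nat.card V < 11 ^ t)
    (hk : 8 * t + 2 ≤ k) : (Vb D).ncard ≤ 2 * Nat.card P := by
  classical
  have := Fintype.ofFinite V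
  have := Fintype.ofFinite P
  obtain ⟨Γ, h3, h4, h5⟩ := supp k (by omega) (Vb D) _ D.N rfl (fun v hv hv0 => by
      have hvb : ¬ 3 ≤ D.dg v := hv
      have h1 : 2 ≤ D.dg v := hD.two v (Or.inl hv0)
      have h2 : D.pn v = 0 := pn_zero fun p hp => hvb (by
        rw [← hp]
        exact hD.three p)
      rw [dg_of, h2] at h1 hvb
      omega) hB.cyc
  rcases (Vb D).eq_empty_or_nonempty with h0 | hne
  · rw [h0, Set.ncard_empty]
    exact Nat.zero_le _
  have hg := Pool.Agent.Helper71.QU.girth_bound t ht _ Γ (Vb D) rfl h3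
    (fun u Z hZ => lt_of_le_of_lt hk (h5 u Z hZ)) hne
  have h6 := sum_deg Γ
  have hBc : (Vb D).ncard = (Vb D).toFinset.card := Set.ncard_eq_toFinset_card' _
  have h7 : 3 * (Vb D).toFinset.card ≤ ∑ v ∈ (Vb D).toFinset, D.dg v := by
    have := Finset.card_nsmul_le_sum (Vb D).toFinset (fun v => D.dg v) 3 (fun v hv => by
      rw [Set.mem_toFinset] at hv
      exact hv)
    rw [smul_eq_mul] at this
    omega
  have h8 : ∑ v ∈ (Vb D).toFinset, D.dg v = ∑ v ∈ (Vb D).toFinset, deg Γ v +
      ∑ v ∈ (Vb D).toFinset, D.pn v := by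
    rw [← Finset.sum_add_distrib]
    refine Finset.sum_congr rfl fun v hv => ?_
    rw [Set.mem_toFinset] at hv
    rw [h4 v hv]
    rfl
  have h9 : ∑ v ∈ (Vb D).toFinset, deg Γ v ≤ ∑ v, deg Γ v :=
    Finset.sum_le_univ_sum_of_nonneg fun _ => Nat.zero_le _
  have h10 : Nat.card P = ∑ v ∈ (Vb D).toFinset, D.pn v := by
    rw [Nat.card_eq_fintype_card, ← Finset.card_univ,
      Finset.card_eq_sum_card_fiberwise (f := D.x) (t := (Vb D).toFinset) (fun p _ => by
        rw [Set.coe_toFinset]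
        exact hD.three p)]
    refine Finset.sum_congr rfl fun v _ => ?_
    unfold HD.pn
    rw [Set.ncard_eq_toFinset_card']
    congr 1
    ext p
    simp
  rw [hBc] at hg ⊢
  omega

omit [Finite V] [Finite P] [Finite Q] in
theorem Pn_mono {t t' : ℕ} {y : V} {q : P} (h : Pn D t y q) (ht : t ≤ t') : Pn D t' y q := by
  obtain ⟨s, h1, h2⟩ := h
  exact ⟨s, h1, h2.trans ht⟩

/-- **PL-6b.** -/
theorem fin (hD : D.Ok) (hB : Bad D k k2) (hk : k2 ≤ k) (hk1 : 1 ≤ k) (p : P) :
    min (e1 D p) (Rb D k2 (D.x p)) < cap D := by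
  classical
  by_contra hcon
  push Not at hcon
  rw [le_min_iff] at hcon
  obtain ⟨he, hR⟩ := hcon
  have hxV : 0 < Nat.card V := by
    have : Nonempty V := ⟨D.x p⟩
    exact Nat.card_pos
  have hcap : cap D = 1000 * (Nat.card V + D.L) := rfl
  obtain ⟨ρ, hρ⟩ : ∃ ρ, ρ + 1 = cap D := ⟨cap D - 1, by omega⟩
  have hbv : bv D (D.ball ρ (D.x p)) ≤ k2 := by
    by_contra hc
    have : Rb D k2 (D.x p) ≤ ρ := Nat.sInf_le (Or.inl (by
      show k2 < bv D (D.ball ρ (D.x p))
      omega))
    omega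
  have hhub : ∀ q, Pn D ρ (D.x p) q → D.hub q = D.hub p := by
    intro q hq
    by_contra hne
    have : e1 D p ≤ ρ := Nat.sInf_le (Or.inl ⟨q, hne, hq⟩)
    omega
  have hno := hB.p2 p ρ (by omega) hbv hhub
  -- no other pin in the component
  have honly : ∀ q, D.N.Reachable (D.x p) (D.x q) → q = p := by
    intro q hq
    by_contra hne
    have h1 : Nr D.N (Nat.card V) (D.x p) (D.x q) := Nr.card hq
    have h2 : Pn D ρ (D.x p) q := ⟨Nat.card V, h1, by
      have := hD.w_le q
      omega⟩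
    have h3 := hhub q h2
    have h4 := Helper63.PL.Byp.trans (Helper63.PL.Rch.of_nr hD p (hD.x_U p) h1)
      (Helper63.PL.Byp.pin hD hne)
    have h5 := hD.w_le q
    have h6 : ρ ≤ k * ρ := Nat.le_mul_of_pos_left _ hk1
    have h7 : Byp D (Fp D p) (k * ρ) (D.x p) (D.hub q) :=
      Helper63.PL.Byp.mono h4 (fun f hf => hf) (by omega)
    rw [h3] at h7
    exact hno h7
  obtain ⟨v, Z, hZ, hZs⟩ := exists_cyc (N := D.N) (x := D.x p) (fun z hz => by
    have hzV : z ∈ D.VN := by
      obtain ⟨W⟩ := hz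
      exact HD.VN_of_nr (Nr.of_walk W) (HD.x_VN p)
    have h1 := hD.two z hzV
    rw [dg_of] at h1
    by_cases hzp : z = D.x p
    · have h2 := hD.three p
      rw [dg_of] at h2
      have h3 : D.pn (D.x p) ≤ 1 := by
        unfold HD.pn
        have h4 : {q | D.x q = D.x p} ⊆ {p} := by
          intro q hq
          have hq' : D.x q = D.x p := hq
          refine honly q ?_
          rw [hq']
        have := Set.ncard_le_ncard h4 (Set.toFinite _)
        rwa [Set.ncard_singleton] at this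
      rw [hzp]
      omega
    · have h2 : D.pn z = 0 := pn_zero fun q hq => by
        have h3 := honly q (by rw [hq]; exact hz)
        rw [h3] at hq
        exact hzp hq.symm
      omega)
  have h1 := hB.cyc v Z hZ
  have h2 : {z | z ∈ Z.support ∧ 3 ≤ D.dg z} ⊆ D.ball ρ (D.x p) ∩ Vb D := by
    rintro z ⟨hz, hz3⟩
    refine ⟨?_, hz3⟩
    exact (Nr.card (hZs z hz)).mono (by omega)
  have h3 := Set.ncard_le_ncard h2 (Set.toFinite _)
  unfold bv at hbv
  omega

end

end Pool.Agent.Helper21.PL
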