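import Pool.Agent.Helper83.OP.Defs

/-!
# PL: suppression of vertices of degree two, and a cycle in a graph without leaves
-/

set_option autoImplicit false

open Set
open Pool.Agent.Helper83.OP

namespace Pool.Agent.Helper21.PL

theorem deg_pos {V : Type} [Finite V] {N : SimpleGraph V} {u v : V} (h : N.Adj u v) :
    deg N u ≠ 0 := by
  unfold deg
  exact ((Set.ncard_pos (Set.toFinite _)).2 ⟨v, h⟩).ne'

/-- the vertices of a cycle -/
theorem cyc_card {V : Type} {N : SimpleGraph V} {x : V} (Z : N.Walk x x) (hZ : Z.IsCycle)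
    (B : Set V) : {z | z ∈ Z.support ∧ z ∈ B}.ncard ≤ Z.length := by
  classical
  have h1 : {z | z ∈ Z.support ∧ z ∈ B} ⊆ ((Z.support.tail.toFinset : Finset V) : Set V) := by
    rintro z ⟨hz, -⟩
    rw [List.coe_toFinset]
    show z ∈ Z.support.tail
    rw [SimpleGraph.Walk.mem_support_iff] at hz
    rcases hz with rfl | hz
    · exact SimpleGraph.Walk.end_mem_tail_support hZ.not_nil
    · exact hz
  refine (Set.ncard_le_ncard h1 (Finset.finite_toSet _)).trans ?_
  rw [Set.ncard_coe_finset]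
  refine (List.toFinset_card_le _).trans ?_
  rw [List.length_tail, SimpleGraph.Walk.length_support]
  omega

/-- the graph without `v`, with the new edge `u w` -/
def sup {V : Type} (N : SimpleGraph V) (v u w : V) (h : u ≠ w) : SimpleGraph V where
  Adj a b := (N.Adj a b ∧ a ≠ v ∧ b ≠ v) ∨ (a = u ∧ b = w) ∨ (a = w ∧ b = u)
  symm := ⟨fun a b hab => by
    rcases hab with ⟨h1, h2, h3⟩ | ⟨h1, h2⟩ | ⟨h1, h2⟩
    · exact Or.inl ⟨h1.symm, h3, h2⟩
    · exact Or.inr (Or.inr ⟨h2, h1⟩)
    · exact Or.inr (Or.inl ⟨h2, h1⟩)⟩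
  loopless := ⟨fun a ha => by
    rcases ha with ⟨h1, -, -⟩ | ⟨rfl, h2⟩ | ⟨rfl, h2⟩
    · exact h1.ne rfl
    · exact h h2
    · exact h h2.symm⟩

theorem sup_comm {V : Type} (N : SimpleGraph V) (v u w : V) (h : u ≠ w) :
    sup N v u w h = sup N v w u h.symm := by
  ext a b
  show (_ ∨ _ ∨ _) ↔ (_ ∨ _ ∨ _)
  tauto

theorem deg_sup_u {V : Type} [Finite V] {N : SimpleGraph V} {v u w : V} (h : u ≠ w)
    (hu : N.Adj v u) (huw : ¬ N.Adj u w) : deg (sup N v u w h) u = deg N u := by
  have h1 : (sup N v u w h).neighborSet u = insert w (N.neighborSet u \ {v}) := by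
    ext b
    rw [SimpleGraph.mem_neighborSet, Set.mem_insert_iff, Set.mem_sdiff, Set.mem_singleton_iff,
      SimpleGraph.mem_neighborSet]
    show ((N.Adj u b ∧ u ≠ v ∧ b ≠ v) ∨ (u = u ∧ b = w) ∨ (u = w ∧ b = u)) ↔ _
    have := hu.ne
    constructor
    · rintro (⟨h1, -, h3⟩ | ⟨-, h2⟩ | ⟨h1, -⟩)
      · exact Or.inr ⟨h1, h3⟩
      · exact Or.inl h2
      · exact absurd h1 h
    · rintro (h2 | ⟨h1, h3⟩)
      · exact Or.inr (Or.inl ⟨rfl, h2⟩)
      · exact Or.inl ⟨h1, hu.ne', h3⟩
  unfold deg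
  rw [h1, Set.ncard_insert_of_notMem (fun hw => huw hw.1) (Set.toFinite _),
    Set.ncard_sdiff_singleton_add_one (show v ∈ N.neighborSet u from hu.symm) (Set.toFinite _)]

theorem deg_sup {V : Type} [Finite V] {N : SimpleGraph V} {v u w : V} (h : u ≠ w)
    (hv : N.neighborSet v = {u, w}) (huw : ¬ N.Adj u w) {z : V} (hz : z ≠ v) :
    deg (sup N v u w h) z = deg N z := by
  have hu : N.Adj v u := by
    have : u ∈ N.neighborSet v := by rw [hv]; exact Or.inl rfl
    exact this
  have hw : N.Adj v w := by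
    have : w ∈ N.neighborSet v := by rw [hv]; exact Or.inr rfl
    exact this
  by_cases hzu : z = u
  · rw [hzu]
    exact deg_sup_u h hu huw
  by_cases hzw : z = w
  · rw [hzw, sup_comm]
    exact deg_sup_u h.symm hw (fun h' => huw h'.symm)
  · have h1 : (sup N v u w h).neighborSet z = N.neighborSet z := by
      ext b
      rw [SimpleGraph.mem_neighborSet, SimpleGraph.mem_neighborSet]
      show ((N.Adj z b ∧ z ≠ v ∧ b ≠ v) ∨ (z = u ∧ b = w) ∨ (z = w ∧ b = u)) ↔ _
      constructor
      · rintro (⟨h1, -, -⟩ | ⟨h1, -⟩ | ⟨h1, -⟩)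
        · exact h1
        · exact absurd h1 hzu
        · exact absurd h1 hzw
      · intro h1
        refine Or.inl ⟨h1, hz, ?_⟩
        rintro rfl
        have : z ∈ N.neighborSet b := h1.symm
        rw [hv] at this
        rcases this with h2 | h2
        · exact hzu h2
        · exact hzw h2
    unfold deg
    rw [h1]

theorem sup_no {V : Type} {N : SimpleGraph V} {v u w : V} (h : u ≠ w) (hu : u ≠ v) (hw : w ≠ v)
    (b : V) : ¬ (sup N v u w h).Adj v b := by
  rintro (⟨-, h1, -⟩ | ⟨h1, -⟩ | ⟨h1, -⟩)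
  · exact h1 rfl
  · exact hu h1.symm
  · exact hw h1.symm

/-- a vertex without neighbours is on no walk that starts elsewhere -/
theorem notMem_walk {V : Type} {N : SimpleGraph V} {v : V} (hv : ∀ b, ¬ N.Adj v b) {a b : V}
    (p : N.Walk a b) (ha : a ≠ v) : v ∉ p.support := by
  induction p with
  | nil => 
    intro h
    rw [SimpleGraph.Walk.support_nil, List.mem_singleton] at h
    exact ha h.symm
  | @cons a c b h q ih =>
    rw [SimpleGraph.Walk.support_cons, List.mem_cons]
    rintro (h1 | h1)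
    · exact ha h1.symm
    · refine ih ?_ h1
      rintro rfl
      exact hv _ h.symm

theorem sup_cyc {V : Type} [Finite V] {k : ℕ} {B : Set V} {N : SimpleGraph V} {v u w : V}
    (h : u ≠ w) (hvB : v ∉ B) (hu : N.Adj v u) (hw : N.Adj v w)
    (hc : ∀ v (Z : N.Walk v v), Z.IsCycle → k < {z | z ∈ Z.support ∧ z ∈ B}.ncard) :
    ∀ x (Z : (sup N v u w h).Walk x x), Z.IsCycle → k < {z | z ∈ Z.support ∧ z ∈ B}.ncard := by
  classical
  intro x Z hZ
  have hadj : ∀ e, e ∈ (sup N v u w h).edgeSet → e ≠ s(u, w) → e ∈ N.edgeSet := by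
    intro e
    induction e using Sym2.ind with
    | _ a b =>
      intro he hne
      have he' : (N.Adj a b ∧ a ≠ v ∧ b ≠ v) ∨ (a = u ∧ b = w) ∨ (a = w ∧ b = u) := he
      rcases he' with ⟨h1, -, -⟩ | ⟨rfl, rfl⟩ | ⟨rfl, rfl⟩
      · exact h1
      · exact absurd rfl hne
      · exact absurd Sym2.eq_swap hne
  by_cases he : s(u, w) ∈ Z.edges
  · have hux : u ∈ Z.support := Z.fst_mem_support_of_mem_edges he
    have hZ' := hZ.rotate hux
    have hs : ∀ z, z ∈ (Z.rotate u hux).support ↔ z ∈ Z.support := fun z => by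
      rw [SimpleGraph.Walk.mem_support_rotate_iff]
    have he' : s(u, w) ∈ (Z.rotate u hux).edges :=
      (Z.rotate_edges u hux).mem_iff.2 he
    generalize Z.rotate u hux = Z' at *
    obtain ⟨Y, hY, hY1, hY2⟩ := hZ'.exists_isCycle_snd_verts_eq (w := w) (by
      rw [← SimpleGraph.Subgraph.mem_edgeSet, SimpleGraph.Walk.mem_edges_toSubgraph]
      exact he')
    have hs2 : ∀ z, z ∈ Y.support → z ∈ Z.support := by
      intro z hz
      rw [← hs, ← SimpleGraph.Walk.mem_verts_toSubgraph, ← hY2,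
        SimpleGraph.Walk.mem_verts_toSubgraph]
      exact hz
    cases Y with
    | nil => exact absurd hY SimpleGraph.Walk.not_isCycle_nil
    | @cons _ c _ hh q =>
      have hcw : c = w := by rw [SimpleGraph.Walk.snd_cons] at hY1; exact hY1
      subst hcw
      rw [SimpleGraph.Walk.cons_isCycle_iff] at hY
      obtain ⟨hq1, hq2⟩ := hY
      have hqN : ∀ e ∈ q.edges, e ∈ N.edgeSet := by
        intro e he
        refine hadj e (q.edges_subset_edgeSet he) ?_
        rintro rfl
        exact hq2 he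
      have hvq : v ∉ q.support := notMem_walk (sup_no h hu.ne' hw.ne') q hw.ne'
      have hcyc : (SimpleGraph.Walk.cons hu.symm
          (SimpleGraph.Walk.cons hw (q.transfer N hqN))).IsCycle := by
        rw [SimpleGraph.Walk.cons_isCycle_iff, SimpleGraph.Walk.cons_isPath_iff]
        refine ⟨⟨hq1.transfer _, ?_⟩, ?_⟩
        · rw [SimpleGraph.Walk.support_transfer]
          exact hvq
        · rw [SimpleGraph.Walk.edges_cons, List.mem_cons]
          rintro (h1 | h1)
          · rw [Sym2.eq_iff] at h1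
            rcases h1 with ⟨h1, -⟩ | ⟨h1, -⟩
            · exact hu.ne' h1
            · exact h h1
          · have := SimpleGraph.Walk.snd_mem_support_of_mem_edges _ h1
            rw [SimpleGraph.Walk.support_transfer] at this
            exact hvq this
      refine (hc _ _ hcyc).trans_le (Set.ncard_le_ncard ?_ (Set.toFinite _))
      rintro z ⟨hz, hzB⟩
      refine ⟨?_, hzB⟩
      rw [SimpleGraph.Walk.support_cons, SimpleGraph.Walk.support_cons,
        SimpleGraph.Walk.support_transfer, List.mem_cons, List.mem_cons] at hz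
      rcases hz with rfl | rfl | hz
      · exact hux
      · exact absurd hzB hvB
      · exact hs2 z (by rw [SimpleGraph.Walk.support_cons]; exact List.mem_cons_of_mem _ hz)
  · have hN : ∀ e ∈ Z.edges, e ∈ N.edgeSet := by
      intro e he'
      refine hadj e (Z.edges_subset_edgeSet he') ?_
      rintro rfl
      exact he he'
    have h1 := hc x (Z.transfer N hN) (hZ.transfer hN)
    rw [SimpleGraph.Walk.support_transfer] at h1
    exact h1

/-- **Suppression.** -/
theorem supp {V : Type} [Finite V] (k : ℕ) (hk : 2 ≤ k) (B : Set V) : ∀ (n : ℕ)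
    (N : SimpleGraph V), {v | v ∉ B ∧ deg N v ≠ 0}.ncard = n →
    (∀ v, v ∉ B → deg N v ≠ 0 → deg N v = 2) →
    (∀ v (Z : N.Walk v v), Z.IsCycle → k < {z | z ∈ Z.support ∧ z ∈ B}.ncard) →
    ∃ Γ : SimpleGraph V, (∀ a b, Γ.Adj a b → a ∈ B) ∧ (∀ v ∈ B, deg Γ v = deg N v) ∧
      ∀ v (Z : Γ.Walk v v), Z.IsCycle → k < Z.length := by
  classical
  intro n
  induction n with
  | zero =>
    intro N hn h2 hc
    refine ⟨N, fun a b hab => ?_, fun v _ => rfl, fun v Z hZ => (hc v Z hZ).trans_le
      (cyc_card Z hZ B)⟩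
    by_contra ha
    rw [Set.ncard_eq_zero (Set.toFinite _)] at hn
    have : a ∈ {v | v ∉ B ∧ deg N v ≠ 0} := ⟨ha, deg_pos hab⟩
    rw [hn] at this
    exact this
  | succ n ih =>
    intro N hn h2 hc
    have hne : {v | v ∉ B ∧ deg N v ≠ 0}.Nonempty := by
      rw [← Set.ncard_pos (Set.toFinite _)]
      omega
    obtain ⟨v, hvB, hv0⟩ := hne
    have hv2 := h2 v hvB hv0
    unfold deg at hv2
    rw [Set.ncard_eq_two] at hv2
    obtain ⟨u, w, huw, hv⟩ := hv2
    have hu : N.Adj v u := by
      have : u ∈ N.neighborSet v := by rw [hv]; exact Or.inl rfl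
      exact this
    have hw : N.Adj v w := by
      have : w ∈ N.neighborSet v := by rw [hv]; exact Or.inr rfl
      exact this
    have hnadj : ¬ N.Adj u w := by
      intro hadj
      have hcyc : (SimpleGraph.Walk.cons hu.symm (SimpleGraph.Walk.cons hw
          (SimpleGraph.Walk.cons hadj.symm SimpleGraph.Walk.nil))).IsCycle := by
        rw [SimpleGraph.Walk.cons_isCycle_iff]
        have := hu.ne
        have := hw.ne
        have := hu.ne'
        have := hw.ne'
        have := huw.symm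
        simp_all
      have h3 := hc _ _ hcyc
      have h4 : {z | z ∈ (SimpleGraph.Walk.cons hu.symm (SimpleGraph.Walk.cons hw
          (SimpleGraph.Walk.cons hadj.symm SimpleGraph.Walk.nil))).support ∧ z ∈ B} ⊆ {u, w} := by
        rintro z ⟨hz, hzB⟩
        simp only [SimpleGraph.Walk.support_cons, SimpleGraph.Walk.support_nil, List.mem_cons,
          List.not_mem_nil, or_false] at hz
        rcases hz with rfl | rfl | rfl | rfl
        · exact Or.inl rfl
        · exact absurd hzB hvB
        · exact Or.inr rfl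
        · exact Or.inl rfl
      have h5 := Set.ncard_le_ncard h4 (Set.toFinite _)
      rw [Set.ncard_pair huw] at h5
      omega
    have hdeg : ∀ z, z ≠ v → deg (sup N v u w huw) z = deg N z := fun z hz =>
      deg_sup huw hv hnadj hz
    have hdv : deg (sup N v u w huw) v = 0 := by
      unfold deg
      rw [Set.ncard_eq_zero (Set.toFinite _)]
      apply Set.eq_empty_of_forall_notMem
      intro b hb
      exact sup_no huw hu.ne' hw.ne' b hb
    have hset : {z | z ∉ B ∧ deg (sup N v u w huw) z ≠ 0} = {z | z ∉ B ∧ deg N z ≠ 0} \ {v} := by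
      ext z
      constructor
      · rintro ⟨h3, h4⟩
        have hzv : z ≠ v := by
          rintro rfl
          exact h4 hdv
        rw [hdeg z hzv] at h4
        exact ⟨⟨h3, h4⟩, hzv⟩
      · rintro ⟨⟨h3, h4⟩, h5⟩
        refine ⟨h3, ?_⟩
        rw [hdeg z h5]
        exact h4
    obtain ⟨Γ, h3, h4, h5⟩ := ih (sup N v u w huw) (by
        have := Set.ncard_sdiff_singleton_add_one (s := {z | z ∉ B ∧ deg N z ≠ 0}) (a := v)
          ⟨hvB, hv0⟩ (Set.toFinite _)
        rw [hset]
        omega) (fun z hz hz0 => by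
        have hzv : z ≠ v := by
          rintro rfl
          exact hz0 hdv
        rw [hdeg z hzv] at hz0 ⊢
        exact h2 z hz hz0) (sup_cyc huw hvB hu hw hc)
    refine ⟨Γ, h3, fun z hz => ?_, h5⟩
    rw [h4 z hz]
    refine hdeg z ?_
    rintro rfl
    exact hvB hz

/-- **A cycle.** -/
theorem exists_cyc {V : Type} [Finite V] {N : SimpleGraph V} {x : V}
    (h : ∀ z, N.Reachable x z → 2 ≤ deg N z) : ∃ (v : V) (Z : N.Walk v v), Z.IsCycle ∧
      ∀ z ∈ Z.support, N.Reachable x z := by
  classical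
  have := Fintype.ofFinite V
  obtain ⟨S, hS⟩ : ∃ S : Set ℕ, S = {l | ∃ (z : V) (p : N.Walk x z), p.IsPath ∧ p.length = l} :=
    ⟨_, rfl⟩
  have hSb : BddAbove S := by
    refine ⟨Fintype.card V, ?_⟩
    intro l hl
    rw [hS] at hl
    obtain ⟨z, p, hp, rfl⟩ := hl
    exact hp.length_lt.le
  have hSn : S.Nonempty := ⟨0, by
    rw [hS]
    exact ⟨x, SimpleGraph.Walk.nil, SimpleGraph.Walk.IsPath.nil, rfl⟩⟩
  have hmem := Nat.sSup_mem hSn hSb
  have hmax : ∀ l ∈ S, l ≤ sSup S := fun l hl => le_csSup hSb hl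
  rw [hS] at hmem
  obtain ⟨z, p, hp, hpl⟩ := hmem
  rw [← hS] at hpl
  have hz := h z ⟨p⟩
  have hex : ∃ y, N.Adj z y ∧ y ≠ p.penultimate := by
    by_contra hcon
    push Not at hcon
    have h1 : N.neighborSet z ⊆ {p.penultimate} := fun y hy => hcon y hy
    have h2 := Set.ncard_le_ncard h1 (Set.toFinite _)
    rw [Set.ncard_singleton] at h2
    unfold deg at hz
    omega
  obtain ⟨y, hy1, hy2⟩ := hex
  have hyp : y ∈ p.support := by
    by_contra hcon
    have h1 : (p.concat hy1).IsPath := hp.concat hcon hy1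
    have h2 := hmax _ (by
      rw [hS]
      exact ⟨y, p.concat hy1, h1, rfl⟩)
    rw [SimpleGraph.Walk.length_concat] at h2
    omega
  refine ⟨z, SimpleGraph.Walk.cons hy1 (p.dropUntil y hyp), ?_, ?_⟩
  · rw [SimpleGraph.Walk.cons_isCycle_iff]
    refine ⟨hp.dropUntil hyp, fun he => ?_⟩
    have h1 : s(z, y) ∈ p.edges := p.edges_dropUntil_subset_edges hyp he
    exact hy2 (hp.eq_penultimate_of_mem_edges h1)
  · intro c hc
    rw [SimpleGraph.Walk.support_cons, List.mem_cons] at hc
    rcases hc with rfl | hc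
    · exact ⟨p⟩
    · exact ⟨p.takeUntil c (p.support_dropUntil_subset_support hyp hc)⟩

end Pool.Agent.Helper21.PL
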